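import Pool.Agent.Lib.MP_9ebf7f_al.CompFac

/-!
# MP_9ebf7f_al: composition factors when the twisted group algebra is simple

Let `A = K^α G` be a twisted group algebra of a finite group over a field `K` of arbitrary
characteristic, and suppose `A` is a simple ring (its centre may be larger than `K`).  Then no
nonabelian composition factor `S` of `G` has a good prime, that is, a prime `q` dividing `|S|` such
that `S` has no proper subgroup of index a power of `q` and `q` does not divide the order of the
Schur multiplier of `S`.

By the classification of the finite simple groups (the list of Guralnick of the subgroups of prime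
power index, and the list of the Schur multipliers) every nonabelian finite simple group has a good
prime.  So the theorem reduces Q1 to these lists.
-/

set_option autoImplicit false

namespace Pool.Agent.Results.MP_9ebf7f_al.CompositionFactors

/-- `q` is a good prime for the group `S`: it divides the order of `S`, there is no proper
subgroup of `S` of index a power of `q`, and `q` does not divide the order of the kernel of any
finite perfect central extension `f : E → S`.  For a finite perfect group `S` the last condition
says that `q` does not divide the order of the Schur multiplier of `S`. -/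
structure GoodPrime (q : ℕ) (S : Type) [Group S] : Prop where
  prime : q.Prime
  dvd_card : q ∣ Nat.card S
  index : ∀ (H : Subgroup S) (k : ℕ), H.index = q ^ k → H = ⊤
  multiplier : ∀ (E : Type) [Group E] [Finite E], commutator E = ⊤ → ∀ f : E →* S,
    Function.Surjective f → f.ker ≤ Subgroup.center E → ¬ q ∣ Nat.card f.ker

theorem result :
    ∀ (K : Type) [Field K] (G : Type) [Group G] [Finite G]
      (A : Type) [Ring A] [Algebra K A] (b : Module.Basis G K A) (c : G → G → K),
      (∀ g h : G, c g h ≠ 0) →
      (∀ g h : G, b g * b h = c g h • b (g * h)) →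
      IsSimpleRing A →
      (∀ U : Subgroup G, U.IsSubnormal → ∀ (V : Subgroup U) [V.Normal],
        IsSimpleGroup (U ⧸ V) → (∃ x y : U ⧸ V, x * y ≠ y * x) →
          ∀ q : ℕ, ¬ GoodPrime q (U ⧸ V)) ∧
      ((∀ U : Subgroup G, U.IsSubnormal → ∀ (V : Subgroup U) [V.Normal],
        IsSimpleGroup (U ⧸ V) → (∃ x y : U ⧸ V, x * y ≠ y * x) →
          ∃ q : ℕ, GoodPrime q (U ⧸ V)) → Group.IsSolvable G) := by
  intro K _ G _ _ A _ _ b c hc hb hA
  let T : Pool.MP_9ebf7f_al.Sol.TGA K G A := ⟨b, c, hc, hb⟩
  have h1 : ∀ U : Subgroup G, U.IsSubnormal → ∀ (V : Subgroup U) [V.Normal],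
      IsSimpleGroup (U ⧸ V) → (∃ x y : U ⧸ V, x * y ≠ y * x) →
        ∀ q : ℕ, ¬ GoodPrime q (U ⧸ V) := by
    intro U hU V _ hS ⟨x, y, hxy⟩ q hq
    have : Fact q.Prime := ⟨hq.prime⟩
    exact T.no_good_factor U hU V (fun h => hxy (h x y)) hq.dvd_card hq.index hq.multiplier
  refine ⟨h1, fun h2 => ?_⟩
  by_contra hG
  obtain ⟨U, hU, V, hV, hS, hna⟩ := Pool.MP_9ebf7f_al.Sol.exists_nonabelian_factor hG
  push Not at hna
  obtain ⟨q, hq⟩ := h2 U hU V hS hna
  exact h1 U hU V hS hna q hq

end Pool.Agent.Results.MP_9ebf7f_al.CompositionFactors
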