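import Pool.Agent.Lib.MP_9ebf7f_al.Cyclic
import Pool.Agent.Lib.MP_9ebf7f_al.PSL

/-!
# MP_9ebf7f_al: families of composition factors for which Q1 is settled

Let `A = K^α G` be a twisted group algebra of a finite group over a field `K` of arbitrary
characteristic, and suppose `A` is a simple ring (its centre may be larger than `K`).  If every
nonabelian composition factor `S` of `G` is of one of the following kinds, then `G` is solvable:

* `S` is an alternating group `A_n`, `n ≥ 5`;
* `S` is `PSL(2, F)`, `F` a finite field with at least 4 elements;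
* some prime `q` divides `|S|` exactly once and `|S|` does not divide `q!`
  (this holds for the orders of the 26 sporadic groups and of the Tits group);
* for some prime `q` dividing `|S|` the Sylow `q`-subgroups of `S` are cyclic and `S` has no proper
  subgroup of index a power of `q`.

No unproved fact on simple groups is used.
-/

set_option autoImplicit false

namespace Pool.Agent.Results.MP_9ebf7f_al.CyclicSylowFactors

open scoped Nat

/-- The kinds of simple groups `S` the theorem is about. -/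
def Admissible (S : Type) [Group S] : Prop :=
  (∃ n : ℕ, 5 ≤ n ∧ Nonempty (S ≃* alternatingGroup (Fin n))) ∨
  (∃ (F : Type) (_ : Field F) (_ : Finite F), 4 ≤ Nat.card F ∧
    Nonempty (S ≃* Matrix.ProjectiveSpecialLinearGroup (Fin 2) F)) ∨
  (∃ q : ℕ, q.Prime ∧ q ∣ Nat.card S ∧ ¬ q ^ 2 ∣ Nat.card S ∧ ¬ Nat.card S ∣ q !) ∨
  (∃ q : ℕ, q.Prime ∧ q ∣ Nat.card S ∧ (∀ P : Sylow q S, IsCyclic P) ∧
    ∀ (H : Subgroup S) (k : ℕ), H.index = q ^ k → H = ⊤)

open Pool.MP_9ebf7f_al.Sol in
/-- An admissible finite simple group has a prime to which the main theorem applies. -/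
lemma Admissible.good {S : Type} [Group S] [Finite S] [IsSimpleGroup S] (h : Admissible S) :
    ∃ q : ℕ, q.Prime ∧ q ∣ Nat.card S ∧ NoIdx q S ∧ ∀ _ : Fact q.Prime, NoMult q S := by
  rcases h with ⟨n, hn, ⟨e⟩⟩ | ⟨F, _, _, hF, ⟨e⟩⟩ | ⟨q, hq, h1, h2, h3⟩ | ⟨q, hq, h1, h2, h3⟩
  · apply alt_good hn
    have : Nontrivial (Fin n) := Fin.nontrivial_iff_two_le.mpr (by omega)
    rw [Nat.card_congr e.toEquiv, two_mul_nat_card_alternatingGroup, Nat.card_perm, Nat.card_fin]
  · obtain ⟨q, hq, h1, h2, h3⟩ := psl_good hF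
    refine ⟨q, hq, ?_, h2.of_equiv e.symm, fun hf => (h3 hf).of_equiv e.symm⟩
    rwa [Nat.card_congr e.toEquiv]
  · have : Fact q.Prime := ⟨hq⟩
    exact ⟨q, hq, h1, noIdx_of_card hq h2 h3, fun _ => noMult_of_cyclic (cyclic_of_card h1 h2)⟩
  · exact ⟨q, hq, h1, h3, fun _ => noMult_of_cyclic h2⟩

theorem result :
    ∀ (K : Type) [Field K] (G : Type) [Group G] [Finite G]
      (A : Type) [Ring A] [Algebra K A] (b : Module.Basis G K A) (c : G → G → K),
      (∀ g h : G, c g h ≠ 0) →
      (∀ g h : G, b g * b h = c g h • b (g * h)) →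
      (∀ U : Subgroup G, U.IsSubnormal → ∀ (V : Subgroup U) [V.Normal],
        IsSimpleGroup (U ⧸ V) → (∃ x y : U ⧸ V, x * y ≠ y * x) → Admissible (U ⧸ V)) →
      IsSimpleRing A →
      Group.IsSolvable G := by
  intro K _ G _ _ A _ _ b c hc hb hU hA
  let T : Pool.MP_9ebf7f_al.Sol.TGA K G A := ⟨b, c, hc, hb⟩
  by_contra hG
  obtain ⟨U, hUs, V, hV, hS, hna⟩ := Pool.MP_9ebf7f_al.Sol.exists_nonabelian_factor hG
  obtain ⟨q, hq, h1, h2, h3⟩ := (hU U hUs V hS (by push Not at hna; exact hna)).good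
  have hf : Fact q.Prime := ⟨hq⟩
  exact T.no_good_factor U hUs V hna h1 h2 (h3 hf)

end Pool.Agent.Results.MP_9ebf7f_al.CyclicSylowFactors
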