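import Pool.Agent.Lib.MP_9ebf7f_al.FewRoots

/-!
# MP_9ebf7f_al: Q1 for fields with few roots of unity

Let `A = K^α G` be a twisted group algebra of a finite group over a field `K` of arbitrary
characteristic, and suppose `A` is a simple ring.  If, for all primes `r` dividing `|G|` with at
most two exceptions, `K` has no primitive `r`-th root of unity or the Sylow `r`-subgroups of `G`
are cyclic, then `G` is solvable.  In particular Q1 holds for all finite groups over every field
which contains primitive `q`-th roots of unity for at most one odd prime `q`.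
-/

set_option autoImplicit false

namespace Pool.Agent.Results.MP_9ebf7f_al.FewRootsOfUnity

theorem result :
    ∀ (K : Type) [Field K] (G : Type) [Group G] [Finite G]
      (A : Type) [Ring A] [Algebra K A] (b : Module.Basis G K A) (c : G → G → K),
      (∀ g h : G, c g h ≠ 0) →
      (∀ g h : G, b g * b h = c g h • b (g * h)) →
      IsSimpleRing A →
      ∀ p q : ℕ,
        (∀ r : ℕ, r.Prime → r ∣ Nat.card G → r ≠ p → r ≠ q →
          (¬ ∃ ζ : K, IsPrimitiveRoot ζ r) ∨ ∀ R : Sylow r G, IsCyclic R) →
        Group.IsSolvable G := by
  intro K _ G _ _ A _ _ b c hc hb hA p q hpq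
  let T : Pool.MP_9ebf7f_al.Sol.TGA K G A := ⟨b, c, hc, hb⟩
  apply T.solvable_two p q
  intro r hr hrd h1 h2
  rcases hpq r hr hrd h1 h2 with h | h
  · exact Or.inl h
  · exact Or.inr ⟨default, h default⟩

end Pool.Agent.Results.MP_9ebf7f_al.FewRootsOfUnity
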