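import Pool.Agent.Lib.MP_9ebf7f_al.Sylow

/-!
# MP_9ebf7f_al: perfect normal subgroups when the twisted group algebra is simple

Let `A = K^α G` be a twisted group algebra of a finite group over a field `K` of arbitrary
characteristic, and suppose `A` is a simple ring.  Let `H` be a normal perfect subgroup of `G`
(for instance the last term of the derived series, so that `G` is solvable iff `H = 1`).  Then for
every prime `q` dividing `|H|` the field `K` contains a primitive `q`-th root of unity, the Sylow
`q`-subgroups of `H` are not cyclic, and the restriction of `α` to them is not a coboundary over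
any extension field of `K`.
-/

set_option autoImplicit false

namespace Pool.Agent.Results.MP_9ebf7f_al.PerfectNormal

open scoped commutatorElement

theorem result :
    ∀ (K : Type) [Field K] (G : Type) [Group G] [Finite G]
      (A : Type) [Ring A] [Algebra K A] (b : Module.Basis G K A) (c : G → G → K),
      (∀ g h : G, c g h ≠ 0) →
      (∀ g h : G, b g * b h = c g h • b (g * h)) →
      IsSimpleRing A →
      ∀ H : Subgroup G, H.Normal → ⁅H, H⁆ = H →
        ∀ q : ℕ, q.Prime → q ∣ Nat.card H →
          (∃ ζ : K, IsPrimitiveRoot ζ q) ∧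
          ∀ Q : Sylow q H, ¬ IsCyclic Q ∧
            ∀ (F : Type) [Field F] [Algebra K F] (f : Q → F), (∀ x, f x ≠ 0) →
              ∃ x y : Q, algebraMap K F (c ((x : H) : G) ((y : H) : G)) ≠
                f x * f y * (f (x * y))⁻¹ := by
  intro K _ G _ _ A _ _ b c hc hb hA H hN hH q hq hqd
  let T : Pool.MP_9ebf7f_al.Sol.TGA K G A := ⟨b, c, hc, hb⟩
  obtain ⟨_, h2, h3⟩ := T.perfect_normal H hN hH hq hqd
  refine ⟨h2, fun Q => ⟨h3 Q, ?_⟩⟩
  intro F _ _ f hf0
  by_contra hcon
  push Not at hcon
  exact T.perfect_normal' H hN hH hq hqd Q F f hf0 hcon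

end Pool.Agent.Results.MP_9ebf7f_al.PerfectNormal
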